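import Pool.Agent.H381R4.BP.Stubs
import Pool.Agent.H804CM.PCM
import Pool.Agent.H624CM.ROT

/-! Task RTV of project BP (helper381): rotation invariance of the lifted density (helper86). -/

set_option autoImplicit false
open MeasureTheory Matrix Filter Topology
open scoped ENNReal BigOperators Pointwise

namespace Pool.Agent.H86BP

open Pool.Agent.H381CM Pool.Agent.H381BP

/-- cyclic permutation -/
def cyc {d : ℕ} (q : V d × V d × V d) : V d × V d × V d := (q.2.1, q.2.2, q.1)

theorem cyc_mp (d : ℕ) : MeasurePreserving (cyc (d := d)) volume volume := by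
  have h1 : MeasurePreserving (Prod.swap : V d × V d × V d → (V d × V d) × V d)
      volume volume := Measure.measurePreserving_swap
  have h2 : MeasurePreserving (MeasurableEquiv.prodAssoc : (V d × V d) × V d ≃ᵐ V d × V d × V d)
      volume volume := measurePreserving_prodAssoc _ _ _
  exact h2.comp h1

theorem polar (a b : ℝ) : ∃ θ : ℝ, a = Real.sqrt (a ^ 2 + b ^ 2) * Real.cos θ ∧
    b = -(Real.sqrt (a ^ 2 + b ^ 2) * Real.sin θ) := by
  refine ⟨Complex.arg (⟨a, -b⟩ : ℂ), ?_, ?_⟩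
  · have h : ‖(⟨a, -b⟩ : ℂ)‖ = Real.sqrt (a ^ 2 + b ^ 2) := by
      rw [Complex.norm_def, Complex.normSq_mk]
      congr 1; ring
    rw [← h, Complex.norm_mul_cos_arg]
  · have h : ‖(⟨a, -b⟩ : ℂ)‖ = Real.sqrt (a ^ 2 + b ^ 2) := by
      rw [Complex.norm_def, Complex.normSq_mk]
      congr 1; ring
    rw [← h, Complex.norm_mul_sin_arg]
    simp

theorem tt_cyc {d : ℕ} {ι : Type} (u : ι → V d) (x y z : V d) (k : ι) :
    tt u y z x k = tt u x y z k := by
  unfold tt; ring

theorem GG_cyc {d : ℕ} {ι : Type} [Fintype ι] (u : ι → V d) (p : ι → Polynomial ℝ)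
    (x y z : V d) : GG u p y z x = GG u p x y z := by
  unfold GG
  simp only [tt_cyc]

theorem F_meas {d : ℕ} {ι : Type} [Fintype ι] (u : ι → V d) (p : ι → Polynomial ℝ)
    (L : Set (V d)) (hL : MeasurableSet L) (a b c : ℝ) :
    Measurable (fun q : V d × V d × V d => ENNReal.ofReal (GG u p q.1 q.2.1 q.2.2) *
      L.indicator (1 : V d → ℝ≥0∞) (a • q.1 + b • q.2.1 + c • q.2.2)) := by
  refine Measurable.mul (PCM_cont_GG u p).measurable.ennreal_ofReal ?_
  refine (measurable_one.indicator hL).comp ?_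
  have : Continuous (fun q : V d × V d × V d => a • q.1 + b • q.2.1 + c • q.2.2) := by fun_prop
  exact this.measurable

/-- rotation in the first two variables -/
theorem step_xy {d : ℕ} {ι : Type} [Fintype ι] (u : ι → V d) (p : ι → Polynomial ℝ)
    (L : Set (V d)) (hL : MeasurableSet L) (a b c : ℝ) :
    ∫⁻ q : V d × V d × V d, ENNReal.ofReal (GG u p q.1 q.2.1 q.2.2) *
      L.indicator (1 : V d → ℝ≥0∞) (a • q.1 + b • q.2.1 + c • q.2.2) =
    ∫⁻ q : V d × V d × V d, ENNReal.ofReal (GG u p q.1 q.2.1 q.2.2) *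
      L.indicator (1 : V d → ℝ≥0∞) (Real.sqrt (a ^ 2 + b ^ 2) • q.1 + (0 : ℝ) • q.2.1 +
        c • q.2.2) := by
  obtain ⟨θ, h1, h2⟩ := polar a b
  rw [← (rot_mp d θ).lintegral_comp (F_meas u p L hL a b c)]
  refine lintegral_congr fun q => ?_
  simp only [rotR, PCM_GG_rot]
  congr 2
  generalize Real.sqrt (a ^ 2 + b ^ 2) = r at *
  have hs := Real.sin_sq_add_cos_sq θ
  rw [h1, h2]
  funext i
  simp only [Pi.add_apply, Pi.smul_apply, smul_eq_mul]
  linear_combination r * q.1 i * hs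

/-- cyclic permutation of the variables -/
theorem step_cyc {d : ℕ} {ι : Type} [Fintype ι] (u : ι → V d) (p : ι → Polynomial ℝ)
    (L : Set (V d)) (hL : MeasurableSet L) (a b c : ℝ) :
    ∫⁻ q : V d × V d × V d, ENNReal.ofReal (GG u p q.1 q.2.1 q.2.2) *
      L.indicator (1 : V d → ℝ≥0∞) (a • q.1 + b • q.2.1 + c • q.2.2) =
    ∫⁻ q : V d × V d × V d, ENNReal.ofReal (GG u p q.1 q.2.1 q.2.2) *
      L.indicator (1 : V d → ℝ≥0∞) (c • q.1 + a • q.2.1 + b • q.2.2) := by
  rw [← (cyc_mp d).lintegral_comp (F_meas u p L hL a b c)]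
  refine lintegral_congr fun q => ?_
  simp only [cyc, GG_cyc]
  congr 2
  abel

theorem T_RTV : S_RTV := by
  intro d ι _ u p L hL a b c
  rw [step_xy u p L hL a b c, step_cyc u p L hL _ 0 c]
  rw [step_xy u p L hL c _ 0]
  refine lintegral_congr fun q => ?_
  have e : c ^ 2 + Real.sqrt (a ^ 2 + b ^ 2) ^ 2 = a ^ 2 + b ^ 2 + c ^ 2 := by
    rw [Real.sq_sqrt (by positivity)]; ring
  rw [e, zero_smul, zero_smul, add_zero, add_zero]

end Pool.Agent.H86BP
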